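import Pool.Agent.helper67.TPF.Spec

set_option autoImplicit false

open Finset PowerSeries

noncomputable section

namespace Pool.Agent.TPF

open Pool.Agent.EP Pool.Agent.PQ Pool.Agent.TPE

/-- Coprimality through (NR). -/
private theorem GRW_cop (hNR : NR_stmt) (b : ℕ) (hb : b % 2 = 1) (s : Finset ℕ) (N : ℕ)
    (hs : ∀ q ∈ s, q.Prime ∧ q % 24 = 7) (hd : ∀ q ∈ s, q ∣ N + 1) (u : ℕ) (hu : 2 ^ b * u ^ 2 < N) :
    Nat.Coprime (∏ q ∈ s, q) (N - 2 ^ b * u ^ 2) := by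
  apply Nat.Coprime.prod_left
  intro q hq
  obtain ⟨hqp, hq24⟩ := hs q hq
  rw [hqp.coprime_iff_not_dvd]
  exact hNR q b N u hqp (by omega) hb (hd q hq) hu

theorem GRW (hKM : KMW_stmt) (hRNK : RKW_stmt) (hRBT : RBT_stmt) (hNR : NR_stmt) : GRW_stmt := by
  intro hLQG α β i a κ T g sA sC m cA cC hT D P R hP hR
  by_contra hcon
  push Not at hcon
  have hT1 : 1 ≤ T := by omega
  have hκ : 1 ≤ κ := by
    rcases Nat.eq_zero_or_pos κ with h | h
    · have := D.tk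
      rw [h] at this
      omega
    · exact h
  have hb : (2 * κ + 1) % 2 = 1 := by omega
  have hb3 : 3 ≤ 2 * κ + 1 := by omega
  -- the relation for all pairs
  have hrel : ∀ x < T, ∀ y < T,
      (∑ u ∈ uB (2 * κ + 1) ((∏ q ∈ sC y, q) * R y), ∑ l ∈ range g, α l ((∏ q ∈ sA x, q) * P x) *
        β l ((∏ q ∈ sC y, q) * R y - 2 ^ (2 * κ + 1) * u ^ 2)) +
      (∑ u ∈ uB (2 * κ + 1) ((∏ q ∈ sA x, q) * P x), ∑ l ∈ range g,
        α l ((∏ q ∈ sA x, q) * P x - 2 ^ (2 * κ + 1) * u ^ 2) *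
        β l ((∏ q ∈ sC y, q) * R y)) = RB (2 * κ + 1) ((∏ q ∈ sA x, q) * P x) ((∏ q ∈ sC y, q) * R y) := by
    intro x hx y hy
    obtain ⟨hPp, hPm, hPn⟩ := hP x hx
    obtain ⟨hRp, hRm, hRn⟩ := hR y hy
    obtain ⟨_, hkA, hkA2⟩ := D.kA x hx (P x) hPm
    obtain ⟨_, hkC, hkC2⟩ := D.kC y hy (R y) hRm
    refine hKM (fun k m => ∑ l ∈ range g, α l k * β l m) (2 * κ + 1) (∏ q ∈ sA x, q) (∏ q ∈ sC y, q)
      (P x) (R y) hb hb3 hPp hRp hkA hkC (hcon x hx y hy) ?_ ?_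
    · intro u hu
      exact GRW_cop hNR (2 * κ + 1) hb (sA x) _ (D.hA x hx) (hkC2 x hx) u hu
    · intro u hu
      exact (GRW_cop hNR (2 * κ + 1) hb (sC y) _ (D.hC y hy) (hkA2 y hy) u hu).symm
  -- the right sides
  have hRB : ∀ x < T, ∀ y < T,
      (x = y → RB (2 * κ + 1) ((∏ q ∈ sA x, q) * P x) ((∏ q ∈ sC y, q) * R y) = 1) ∧
      (y < x → RB (2 * κ + 1) ((∏ q ∈ sA x, q) * P x) ((∏ q ∈ sC y, q) * R y) = 0) := by
    intro x hx y hy
    obtain ⟨hPp, hPm, hPn⟩ := hP x hx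
    obtain ⟨hRp, hRm, hRn⟩ := hR y hy
    have hP24 := (D.kA x hx (P x) hPm).1
    have hR24 := (D.kC y hy (R y) hRm).1
    have e1 : (∏ q ∈ sA x, q) * P x = ∏ q ∈ insert (P x) (sA x), q := by
      rw [prod_insert hPn, mul_comm]
    have e2 : (∏ q ∈ sC y, q) * R y = ∏ q ∈ insert (R y) (sC y), q := by
      rw [prod_insert hRn, mul_comm]
    have hcA := D.cdA x hx
    have hcC := D.cdC y hy
    have htk := D.tk
    have h := hRBT hLQG κ (2 * x + 1) (2 * y + 1) (insert (P x) (sA x)) (insert (R y) (sC y)) hκ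
      (by
        intro q hq
        rcases mem_insert.mp hq with h | h
        · rw [h]; exact ⟨hPp, hP24⟩
        · exact D.hA x hx q h)
      (by
        intro q hq
        rcases mem_insert.mp hq with h | h
        · rw [h]; exact ⟨hRp, hR24⟩
        · exact D.hC y hy q h)
      (by rw [card_insert_of_notMem hPn, hcA]) (by omega)
      (by rw [card_insert_of_notMem hRn]; omega) (by omega)
    rw [← e1, ← e2] at h
    exact ⟨fun hxy => h.1 (by omega), fun hxy => h.2 (by omega)⟩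
  refine hRNK T g (fun l x => α l ((∏ q ∈ sA x, q) * P x))
    (fun l y => ∑ u ∈ uB (2 * κ + 1) ((∏ q ∈ sC y, q) * R y),
      β l ((∏ q ∈ sC y, q) * R y - 2 ^ (2 * κ + 1) * u ^ 2))
    (fun l y => β l ((∏ q ∈ sC y, q) * R y))
    (fun l x => ∑ u ∈ uB (2 * κ + 1) ((∏ q ∈ sA x, q) * P x),
      α l ((∏ q ∈ sA x, q) * P x - 2 ^ (2 * κ + 1) * u ^ 2)) hT ?_
  intro x y
  have h1 := hrel x x.2 y y.2
  have h2 := hRB x x.2 y y.2
  rw [Finset.sum_comm (s := uB (2 * κ + 1) ((∏ q ∈ sC y, q) * R y)),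
    Finset.sum_comm (s := uB (2 * κ + 1) ((∏ q ∈ sA x, q) * P x))] at h1
  simp only [← Finset.mul_sum, ← Finset.sum_mul] at h1
  refine ⟨fun hxy => ?_, fun hxy => ?_⟩
  · exact h1.trans (h2.1 (by rw [hxy]))
  · exact h1.trans (h2.2 hxy)

end Pool.Agent.TPF
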