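import Pool.Agent.helper67.TPF.Spec
import Pool.Agent.helper82.PQ.EVK

set_option autoImplicit false

open Finset Pool.Agent.EP Pool.Agent.PQ

noncomputable section

namespace Pool.Agent.TPF

open Pool.Agent.TPE

theorem KMW_val (w : ℕ → ℕ → ZMod 2) (k m : ℕ) (hN : (k * m) % 24 = 23) (hc : k.Coprime m)
    (h : ∀ n : ℕ, 24 * n = k * m + 1 → ¬ BdN w n) : w k m = ac ((k * m : ℕ) : ℤ) := by
  rw [EVK_ac (k * m) hN]
  have h1 : 24 * ((k * m + 1) / 24) = k * m + 1 := by omega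
  have h2 := h _ h1
  by_contra hne
  exact h2 ⟨k, m, hc, h1.symm, fun h3 => hne h3.symm⟩

theorem KMW (hSUMP : SUMP_stmt) : KMW_stmt := by
  intro w b A C P R hb hb3 hP hR hk24 hM24 hbad hc1 hc2
  have hk6 : (A * P) % 6 = 1 := by omega
  have hM2 : (C * R) % 2 = 1 := by omega
  have hk3 : (A * P) % 3 = 1 := by omega
  have hM3 : (C * R) % 3 = 1 := by omega
  have hkM8 : (A * P * (C * R)) % 8 = 7 := by
    have h1 : (A * P) % 8 = 7 := by omega
    have h2 : (C * R) % 8 = 1 := by omega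
    rw [Nat.mul_mod, h1, h2]
  have hexc : ¬ ExcP (2 ^ b) A C P R := fun h => hbad (Or.inl h)
  have hval : ∀ n : ℕ, RelP (2 ^ b) A C P R n → ¬ BdN w n := by
    intro n hn hne
    exact hbad (Or.inr ⟨n, hn, hne⟩)
  have h := hSUMP b A C P R hb hP hR hk6 hM2 hexc hc1 hc2
  rw [← h]
  congr 1
  · apply Finset.sum_congr rfl
    intro u hu
    unfold uB at hu
    rw [Finset.mem_filter] at hu
    obtain ⟨-, hu6, hle⟩ := hu
    have hw := EVK_Bu b u hb hb3 hu6
    have hlt : 2 ^ b * u ^ 2 < C * R := by omega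
    have hmod := EVK_mod (A * P) (C * R) (2 ^ b * u ^ 2) hk3 hM3 hkM8 hw hle
    have hcop : (A * P).Coprime (C * R - 2 ^ b * u ^ 2) := by
      refine Nat.Coprime.mul_left (hc1 u hlt) ?_
      rw [hP.coprime_iff_not_dvd]
      intro hd
      exact hexc (Or.inr (Or.inl ⟨u, hlt, hd⟩))
    exact KMW_val w _ _ hmod hcop (fun n hn => hval n ⟨u, Or.inl ⟨hlt, hn⟩⟩)
  · apply Finset.sum_congr rfl
    intro u hu
    unfold uB at hu
    rw [Finset.mem_filter] at hu
    obtain ⟨-, hu6, hle⟩ := hu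
    have hw := EVK_Bu b u hb hb3 hu6
    have hlt : 2 ^ b * u ^ 2 < A * P := by omega
    have hmod := EVK_mod (C * R) (A * P) (2 ^ b * u ^ 2) hM3 hk3 (by rw [mul_comm]; exact hkM8) hw hle
    rw [mul_comm] at hmod
    have hcop : (A * P - 2 ^ b * u ^ 2).Coprime (C * R) := by
      refine Nat.Coprime.mul_right (hc2 u hlt) ?_
      rw [Nat.coprime_comm, hR.coprime_iff_not_dvd]
      intro hd
      exact hexc (Or.inr (Or.inr ⟨u, hlt, hd⟩))
    exact KMW_val w _ _ hmod hcop (fun n hn => hval n ⟨u, Or.inr ⟨hlt, hn⟩⟩)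

end Pool.Agent.TPF
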