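import Pool.Agent.helper67.TPF.Spec
import Pool.Agent.helper57.LQ.SpecC

set_option autoImplicit false

open Finset PowerSeries

noncomputable section

namespace Pool.Agent.TPF

open Pool.Agent.EP Pool.Agent.PQ Pool.Agent.TPE

theorem LQG (hLMQ : Pool.Agent.LQ.LMQ_stmt) (hTGR : Pool.Agent.LQ.TGR_stmt) : LQG_stmt := by
  intro s hs
  obtain ⟨h1, h2⟩ := hLMQ s hs
  have hv : HahnSeries.ofPowerSeries ℤ (ZMod 2) Pool.Agent.LQ.tt = vvx := hTGR.2.2.2.2.2
  have hc : ∀ i n : ℕ, (vvx ^ i).coeff (n : ℤ) = PowerSeries.coeff n (Pool.Agent.LQ.tt ^ i) := by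
    intro i n
    rw [← hv, ← map_pow]
    exact HahnSeries.ofPowerSeries_apply_coeff _ _
  have hd : dl #s = 1 + 6 * Pool.Agent.LQ.sd #s := rfl
  refine ⟨fun x hx hx6 => ?_, ?_⟩
  · rw [hc]
    exact h1 x (by rw [← hd]; exact hx) hx6
  · rw [hc, hd]
    exact h2

end Pool.Agent.TPF
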