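import Pool.Agent.helper67.TPF.Spec

set_option autoImplicit false

open Finset

noncomputable section

namespace Pool.Agent.TPF

open Pool.Agent.EP Pool.Agent.PQ Pool.Agent.TPE

theorem RKW : RKW_stmt := by
  intro T g U G V H hT h
  set A : Matrix (Fin T) (Fin g ⊕ Fin g) (ZMod 2) :=
    fun x s => Sum.elim (fun l : Fin g => U l x) (fun l : Fin g => H l x) s with hA
  set B : Matrix (Fin g ⊕ Fin g) (Fin T) (ZMod 2) :=
    fun s y => Sum.elim (fun l : Fin g => G l y) (fun l : Fin g => V l y) s with hB
  set N : Matrix (Fin T) (Fin T) (ZMod 2) := A * B with hN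
  have hNxy : ∀ x y : Fin T, N x y = ∑ l ∈ range g, U l x * G l y + ∑ l ∈ range g, H l x * V l y := by
    intro x y
    rw [hN, Matrix.mul_apply, Fintype.sum_sum_type, Finset.sum_range, Finset.sum_range]
    simp only [hA, hB, Sum.elim_inl, Sum.elim_inr]
  have htri : N.BlockTriangular id := by
    intro x y hxy
    rw [hNxy]
    exact (h x y).2 hxy
  have hdet : N.det = 1 := by
    rw [Matrix.det_of_isUpperTriangular htri]
    refine Finset.prod_eq_one fun x _ => ?_
    rw [hNxy]
    exact (h x x).1 rfl
  have hunit : IsUnit N := by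
    rw [Matrix.isUnit_iff_isUnit_det, hdet]
    exact isUnit_one
  have hr : N.rank = T := by
    rw [Matrix.rank_of_isUnit N hunit, Fintype.card_fin]
  have h1 : N.rank ≤ Fintype.card (Fin g ⊕ Fin g) :=
    (Matrix.rank_mul_le_left A B).trans (Matrix.rank_le_card_width A)
  rw [Fintype.card_sum, Fintype.card_fin] at h1
  omega

end Pool.Agent.TPF
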