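import Pool.Agent.helper18.PQ.GID
import Pool.Agent.helper71.PQ.GV
import Pool.Agent.helper49.PQ.JC
import Pool.Agent.helper43.PQ.VCL
import Pool.Agent.helper31.PQ.SUMP
import Pool.Agent.helper72.PQ.JGC
import Pool.Agent.helper72.PQ.NR
import Pool.Agent.helper64.PQ.CNL
import Pool.Agent.helper75.PQ.FBP
import Pool.Agent.helper3.PQ.EXC
import Pool.Agent.helper39.PQ.CLR
import Pool.Agent.helper18.TPE.CRG
import Pool.Agent.helper41.TPE.SGP
import Pool.Agent.helper75.TPE.RBT
import Pool.Agent.helper72.TPE.QUG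
import Pool.Agent.helper72.TPD.XFU
import Pool.Agent.helper67.TPF.RKW
import Pool.Agent.helper67.TPF.KMW
import Pool.Agent.helper67.TPF.GRW
import Pool.Agent.helper67.TPF.CNW
import Pool.Agent.helper67.TPF.LQG
import Pool.Agent.helper67.LQ.All

set_option autoImplicit false

namespace Pool.Agent.TPF

open Pool.Agent.EP Pool.Agent.PQ Pool.Agent.TPE

theorem all_SUMP : SUMP_stmt := SUMP (GID VCL GV (JC VCL)) JGC

theorem all_CNL : CNL_stmt := CNL FBP EXC

theorem all_RBT : RBT_stmt := RBT SGP VCL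

theorem all_LQG : LQG_stmt := LQG Pool.Agent.LQ.all_LMQ Pool.Agent.LQ.all_TGR

theorem all_MAIN : MAIN_stmt :=
  MAIN_of all_LQG (CNW all_CNL CLR QUG (GRW (KMW all_SUMP) RKW all_RBT NR) CRG) Pool.Agent.TPD.XFU

end Pool.Agent.TPF
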