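import Pool.Agent.helper67.TPE.Spec

/-!
# Project tpf (MP_ebc808_nt): theorem P5 in the rank form

For all `i`, `a`, `g` there are `c > 0` and `X₀` such that for all `α β : ℕ → ℕ → ZMod 2` and `X ≥ X₀` at least `c X^(3/4)/(log X)^2` of the
`n ≤ X`, `n = a mod 2^i`, satisfy `p(n) ≠ ∑_{l < g} α l k * β l m` for some coprime `k`, `m` with `k m = 24 n - 1`.
-/

set_option autoImplicit false

open Finset PowerSeries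

noncomputable section

namespace Pool.Agent.TPF

open Pool.Agent.EP Pool.Agent.PQ Pool.Agent.TPE

/-- `n` is bad for `w`. -/
def BdN (w : ℕ → ℕ → ZMod 2) (n : ℕ) : Prop := ∃ k m : ℕ, k.Coprime m ∧ k * m + 1 = 24 * n ∧ pp n ≠ w k m

/-- A pair is exceptional or leads to a bad `n`. -/
def BadW (b A C P R : ℕ) (w : ℕ → ℕ → ZMod 2) : Prop :=
  ExcP (2 ^ b) A C P R ∨ ∃ n : ℕ, RelP (2 ^ b) A C P R n ∧ BdN w n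

open Classical in
/-- The counting function. -/
def Nw (i a : ℕ) (w : ℕ → ℕ → ZMod 2) (X : ℕ) : ℕ := #{n ∈ range (X + 1) | n % 2 ^ i = a % 2 ^ i ∧ BdN w n}

/-- **KMW** (copy of tpe:KM). -/
def KMW_stmt : Prop := ∀ w : ℕ → ℕ → ZMod 2,
  ∀ b A C P R : ℕ, b % 2 = 1 → 3 ≤ b → P.Prime → R.Prime → (A * P) % 24 = 7 → (C * R) % 24 = 1 →
  ¬ BadW b A C P R w →
  (∀ u : ℕ, 2 ^ b * u ^ 2 < C * R → Nat.Coprime A (C * R - 2 ^ b * u ^ 2)) →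
  (∀ u : ℕ, 2 ^ b * u ^ 2 < A * P → Nat.Coprime (A * P - 2 ^ b * u ^ 2) C) →
  (∑ u ∈ uB b (C * R), w (A * P) (C * R - 2 ^ b * u ^ 2)) +
    (∑ u ∈ uB b (A * P), w (A * P - 2 ^ b * u ^ 2) (C * R)) = RB b (A * P) (C * R)

/-- **RKW**: rank. -/
def RKW_stmt : Prop := ∀ (T g : ℕ) (U G V H : ℕ → Fin T → ZMod 2), 2 * g < T →
  ¬ ∀ x y : Fin T, (x = y → ∑ l ∈ range g, U l x * G l y + ∑ l ∈ range g, H l x * V l y = 1) ∧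
    (y < x → ∑ l ∈ range g, U l x * G l y + ∑ l ∈ range g, H l x * V l y = 0)

/-- **GRW** (copy of tpe:GRD). -/
def GRW_stmt : Prop := LQG_stmt → ∀ (α β : ℕ → ℕ → ZMod 2),
  ∀ (i a κ T g : ℕ) (sA sC : ℕ → Finset ℕ) (m : ℕ) (cA cC : ℕ → ℕ), 2 * g < T → D5 i a κ T sA sC m cA cC →
  ∀ P R : ℕ → ℕ, (∀ x < T, (P x).Prime ∧ P x % m = cA x % m ∧ P x ∉ sA x) → (∀ y < T, (R y).Prime ∧ R y % m = cC y % m ∧ R y ∉ sC y) →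
  ∃ x < T, ∃ y < T, BadW (2 * κ + 1) (∏ q ∈ sA x, q) (∏ q ∈ sC y, q) (P x) (R y) (fun k m => ∑ l ∈ range g, α l k * β l m)

/-- **CNW** (copy of tpe:CNG). -/
def CNW_stmt : Prop := LQG_stmt → ∀ i a g : ℕ, ∃ (D y₀ : ℕ) (c₁ : ℝ), 0 < D ∧ 0 < c₁ ∧
  ∀ (α β : ℕ → ℕ → ZMod 2), ∀ y : ℕ, y₀ ≤ y → c₁ * (y : ℝ) ^ (3 / 2 : ℝ) / Real.log y ^ 2 ≤
    (Nw i a (fun k m => ∑ l ∈ range g, α l k * β l m) (D * y ^ 2) : ℝ)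

/-- **MAIN**. -/
def MAIN_stmt : Prop := ∀ i a g : ℕ, ∃ c : ℝ, 0 < c ∧ ∃ X₀ : ℕ, ∀ (α β : ℕ → ℕ → ZMod 2), ∀ X : ℕ, X₀ ≤ X →
  c * (X : ℝ) ^ (3 / 4 : ℝ) / Real.log X ^ 2 ≤ (Nw i a (fun k m => ∑ l ∈ range g, α l k * β l m) X : ℝ)

theorem MAIN_of (hLQG : LQG_stmt) (hCNW : CNW_stmt) (hXFU : Pool.Agent.TPD.XFU_stmt) : MAIN_stmt := by
  intro i a g
  obtain ⟨D, y₀, c₁, hD, hc₁, h⟩ := hCNW hLQG i a g
  obtain ⟨c, hc, X₀, h2⟩ := hXFU D y₀ c₁ hD hc₁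
  refine ⟨c, hc, X₀, fun α β X hX => h2 (Nw i a (fun k m => ∑ l ∈ range g, α l k * β l m)) ?_ (h α β) X hX⟩
  intro X Y hXY
  unfold Nw
  refine Finset.card_le_card fun n hn => ?_
  simp only [mem_filter, mem_range] at hn ⊢
  exact ⟨by omega, hn.2⟩

end Pool.Agent.TPF
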